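import Mathlib

/-!
# MP_efdca5_co: decay number versus the chromatic number of the complement (Q1 and Q2 are true)

The bound `y_G ≤ 2 χ(Gᶜ) - λ + 1` holds for every `λ`-edge-connected graph `G` other than `C_3`,
`λ ∈ {1, 2}`, planar or not.
-/

namespace Pool.Agent.Results.MP_efdca5_co.Merge

open Finset SimpleGraph

/-- Any two distinct vertices are joined by `k` pairwise edge-disjoint paths. -/
def EdgeConn {V : Type} (G : SimpleGraph V) (k : ℕ) : Prop :=
  ∀ u v, u ≠ v → ∃ P : Fin k → G.Path u v,
    ∀ i j, i ≠ j → ∀ e, e ∈ (P i).1.edges → e ∉ (P j).1.edges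

/-- `y_G(A) = 2 c(G - A) - |A| - 1`. -/
noncomputable def yA {V : Type} (G : SimpleGraph V) (A : Finset (Sym2 V)) : ℤ :=
  2 * (Nat.card (G.deleteEdges A).ConnectedComponent : ℤ) - A.card - 1

section
variable {V L : Type} [Fintype V] [DecidableEq V] [DecidableEq L] (G : SimpleGraph V)
  [DecidableRel G.Adj]

def cross (p : V → L) : Finset (V × V) := univ.filter fun x => G.Adj x.1 x.2 ∧ p x.1 ≠ p x.2

theorem merge {k d : ℕ} (q : V → Fin k) (hq : ∀ u v, q u = q v → u ≠ v → G.Adj u v)
    (hb : ∀ p : V → L, (univ.image p).card ≤ k →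
      4 * (univ.image p).card ≤ (cross G p).card + 2 * k + d) (S : Finset (Fin k)) :
    ∀ p : V → L, (∀ u v, q u ∉ S → q u = q v → p u = p v) →
      4 * (univ.image p).card ≤ (cross G p).card + 2 * S.card + 2 * k + d := by
  induction S using Finset.induction_on with
  | empty =>
    intro p hp
    have h : (univ.image p).card ≤ k := by
      have : ∀ l : univ.image p, ∃ u, p u = l := fun l => by
        obtain ⟨u, -, hu⟩ := mem_image.1 l.2
        exact ⟨u, hu⟩
      choose r hr using this
      have := Fintype.card_le_of_injective (fun l => q (r l)) fun l l' h =>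
        Subtype.ext (by rw [← hr, ← hr]; exact hp _ _ (by simp) h)
      simpa using this
    have := hb p h
    simpa using this
  | insert i S hi ih =>
    intro p hp
    rw [card_insert_of_notMem hi]
    by_cases he : ∃ w, q w = i
    swap
    · have := ih p fun u v hu huv => hp u v (by
        simp only [mem_insert, not_or]; exact ⟨fun h => he ⟨u, h⟩, hu⟩) huv
      omega
    obtain ⟨w, hw⟩ := he
    set T := (univ.filter fun u => q u = i).image p with hT
    have hmem : ∀ u, q u = i → p u ∈ T := fun u hu => mem_image_of_mem p (by simpa using hu)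
    set p' : V → L := fun v => if p v ∈ T then p w else p v with hp'
    have h1 := ih p' (by
      intro u v hu huv
      by_cases hui : q u = i
      · simp only [hp', if_pos (hmem u hui), if_pos (hmem v (huv ▸ hui))]
      · simp only [hp', hp u v (by simp only [mem_insert, not_or]; exact ⟨hui, hu⟩) huv])
    have h2 : (univ.image p).card + 1 ≤ (univ.image p').card + T.card := by
      have a1 : univ.image p ⊆ univ.image p' ∪ T.erase (p w) := by
        intro l hl
        obtain ⟨v, -, rfl⟩ := mem_image.1 hl
        by_cases hv : p v ∈ T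
        · by_cases hvw : p v = p w
          · refine mem_union_left _ (mem_image.2 ⟨v, mem_univ _, ?_⟩)
            simp only [hp', if_pos hv, hvw]
          · exact mem_union_right _ (mem_erase.2 ⟨hvw, hv⟩)
        · exact mem_union_left _ (mem_image.2 ⟨v, mem_univ _, by simp only [hp', if_neg hv]⟩)
      have a2 := (card_le_card a1).trans (card_union_le _ _)
      rw [card_erase_of_mem (hmem w hw)] at a2
      have a3 := card_pos.2 ⟨_, hmem w hw⟩
      omega
    set D := univ.filter fun x : V × V => q x.1 = i ∧ q x.2 = i ∧ p x.1 ≠ p x.2 with hD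
    have h3 : T.offDiag.card ≤ D.card := by
      refine le_trans (card_le_card ?_) (card_image_le (f := fun x : V × V => (p x.1, p x.2)))
      rintro ⟨a, b⟩ hab
      obtain ⟨ha, hb', hne⟩ := mem_offDiag.1 hab
      obtain ⟨u, hu, rfl⟩ := mem_image.1 ha
      obtain ⟨v, hv, rfl⟩ := mem_image.1 hb'
      refine mem_image.2 ⟨(u, v), ?_, rfl⟩
      simp only [mem_filter, mem_univ, true_and, hD] at hu hv ⊢
      exact ⟨hu, hv, hne⟩
    have h4 : (cross G p').card + D.card ≤ (cross G p).card := by
      rw [← card_union_of_disjoint]
      · refine card_le_card ?_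
        rintro ⟨u, v⟩ h
        simp only [cross, hD, mem_union, mem_filter, mem_univ, true_and] at h ⊢
        rcases h with ⟨h, h'⟩ | ⟨h, h', h''⟩
        · exact ⟨h, fun e => h' (by simp only [hp', e])⟩
        · exact ⟨hq u v (h.trans h'.symm) fun e => h'' (by rw [e]), h''⟩
      · rw [Finset.disjoint_left]
        rintro ⟨u, v⟩ h h'
        simp only [cross, hD, mem_filter, mem_univ, true_and] at h h'
        exact h.2 (by simp only [hp', if_pos (hmem u h'.1), if_pos (hmem v h'.2.1)])
    rw [offDiag_card] at h3
    have h5 : 5 * T.card ≤ T.card * T.card + 6 := by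
      rcases Nat.lt_or_ge T.card 3 with h | h
      · interval_cases T.card <;> omega
      · nlinarith
    omega

theorem two_le (h : EdgeConn G 2) (p : V → L) (hc : 2 ≤ (univ.image p).card) :
    2 * (univ.image p).card ≤ (cross G p).card := by
  rw [card_eq_sum_card_fiberwise (f := fun x : V × V => p x.1) (t := univ.image p)
    (fun x _ => mem_image_of_mem p (mem_univ _)), mul_comm, ← smul_eq_mul]
  refine card_nsmul_le_sum _ _ _ fun l hl => ?_
  obtain ⟨u, -, rfl⟩ := mem_image.1 hl
  obtain ⟨l', hl', hne⟩ := exists_mem_ne (by omega : 1 < (univ.image p).card) (p u)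
  obtain ⟨v, -, rfl⟩ := mem_image.1 hl'
  obtain ⟨P, hP⟩ := h u v fun e => hne (by rw [e])
  obtain ⟨d0, a0, b0, c0⟩ := (P 0).1.exists_boundary_dart {x | p x = p u} rfl hne
  obtain ⟨d1, a1, b1, c1⟩ := (P 1).1.exists_boundary_dart {x | p x = p u} rfl hne
  have m : ∀ d : G.Dart, p d.fst = p u → ¬ p d.snd = p u →
      d.toProd ∈ (cross G p).filter fun x => p x.1 = p u := by
    intro d h1 h2
    simp only [cross, mem_filter, mem_univ, true_and]
    exact ⟨⟨d.adj, fun e => h2 (e ▸ h1)⟩, h1⟩
  refine one_lt_card.2 ⟨_, m d0 b0 c0, _, m d1 b1 c1, fun e => ?_⟩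
  have e' : d0 = d1 := Dart.ext _ _ e
  subst e'
  exact hP 0 1 (by decide) d0.edge (List.mem_map_of_mem a0) (List.mem_map_of_mem a1)

theorem one_le [Nonempty V] (h : G.Connected) (p : V → L) :
    2 * (univ.image p).card ≤ (cross G p).card + 2 := by
  obtain ⟨r⟩ := ‹Nonempty V›
  set C := (cross G p).filter fun x => G.dist x.2 r < G.dist x.1 r with hC
  have h1 : ((univ.image p).erase (p r)).card ≤ C.card := by
    refine le_trans (card_le_card ?_) (card_image_le (f := fun x : V × V => p x.1))
    intro l hl
    obtain ⟨hne, hl⟩ := mem_erase.1 hl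
    obtain ⟨u0, -, rfl⟩ := mem_image.1 hl
    obtain ⟨u, hu, hmin⟩ := exists_min_image (univ.filter fun x => p x = p u0)
      (fun x => G.dist x r) ⟨u0, by simp⟩
    have hu' : p u = p u0 := by simpa using hu
    obtain ⟨W, hW⟩ := h.exists_walk_length_eq_dist u r
    cases W with
    | nil => exact absurd hu'.symm hne
    | @cons _ v _ huv W =>
      have hd : G.dist v r < G.dist u r := by
        have := dist_le W
        rw [← hW, Walk.length_cons]; omega
      refine mem_image.2 ⟨(u, v), ?_, hu'⟩
      simp only [hC, cross, mem_filter, mem_univ, true_and]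
      refine ⟨⟨huv, fun e => ?_⟩, hd⟩
      have := hmin v (by simp [← e, hu'])
      omega
  have h2 : C.card + (C.image Prod.swap).card ≤ (cross G p).card := by
    rw [← card_union_of_disjoint]
    · refine card_le_card (union_subset (filter_subset _ _) ?_)
      intro x hx
      obtain ⟨y, hy, rfl⟩ := mem_image.1 hx
      simp only [hC, cross, mem_filter, mem_univ, true_and, Prod.fst_swap, Prod.snd_swap] at hy ⊢
      exact ⟨hy.1.1.symm, hy.1.2.symm⟩
    · rw [Finset.disjoint_left]
      intro x hx hx'
      obtain ⟨y, hy, rfl⟩ := mem_image.1 hx'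
      simp only [hC, mem_filter, Prod.fst_swap, Prod.snd_swap] at hx hy
      omega
  rw [card_image_of_injective _ Prod.swap_injective] at h2
  rw [card_erase_of_mem (mem_image_of_mem p (mem_univ r))] at h1
  omega

theorem complete_le (h : ∀ u v, u ≠ v → G.Adj u v) (p : V → L) :
    Fintype.card V * ((univ.image p).card - 1) ≤ (cross G p).card := by
  rw [card_eq_sum_card_fiberwise (f := fun x : V × V => x.1) (t := univ)
    (fun x _ => mem_univ _), ← smul_eq_mul, ← card_univ]
  refine card_nsmul_le_sum _ _ _ fun u _ => ?_
  rw [← card_erase_of_mem (mem_image_of_mem p (mem_univ u))]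
  refine le_trans (card_le_card ?_) (card_image_le (f := fun x : V × V => p x.2))
  intro l hl
  obtain ⟨hne, hl⟩ := mem_erase.1 hl
  obtain ⟨v, -, rfl⟩ := mem_image.1 hl
  refine mem_image.2 ⟨(u, v), ?_, rfl⟩
  simp only [cross, mem_filter, mem_univ, true_and, and_true]
  exact ⟨h u v fun e => hne (by rw [e]), hne.symm⟩

end

/-- For `λ ∈ {1, 2}` and every `λ`-edge-connected graph `G` not isomorphic to `C_3`, every set `A`
of edges has `y_G(A) ≤ 2 χ(Gᶜ) - λ + 1`. -/
theorem result (V : Type) [Fintype V] [Nonempty V] (G : SimpleGraph V) (lam : ℕ)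
    (hl : lam = 1 ∨ lam = 2) (hc : EdgeConn G lam) (h3 : IsEmpty (G ≃g cycleGraph 3))
    (A : Finset (Sym2 V)) (_hA : ∀ e ∈ A, e ∈ G.edgeSet) :
    yA G A ≤ 2 * (Gᶜ.chromaticNumber.toNat : ℤ) - lam + 1 := by
  classical
  obtain ⟨q⟩ := Gᶜ.colorable_chromaticNumber_of_fintype
  generalize Gᶜ.chromaticNumber.toNat = k at q ⊢
  have hq : ∀ u v, q u = q v → u ≠ v → G.Adj u v := by
    intro u v h hne
    by_contra hn
    exact q.valid (by simp [hne, hn]) h
  set p := (G.deleteEdges A).connectedComponentMk with hp
  have h1 : Nat.card (G.deleteEdges A).ConnectedComponent = (univ.image p).card := by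
    rw [image_univ_of_surjective (f := p) Quot.mk_surjective, card_univ, Nat.card_eq_fintype_card]
  have h2 : (cross G p).card ≤ 2 * A.card := by
    refine card_le_mul_card_image_of_maps_to (f := fun x : V × V => s(x.1, x.2)) ?_ 2 ?_
    · rintro ⟨u, v⟩ h
      simp only [cross, mem_filter, mem_univ, true_and] at h
      by_contra hn
      exact h.2 (ConnectedComponent.connectedComponentMk_eq_of_adj (by simp [h.1, hn]))
    · intro e _
      induction e using Sym2.ind with
      | _ x y =>
        refine le_trans (card_le_card (t := {(x, y), (y, x)}) ?_) card_le_two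
        rintro ⟨u, v⟩ h
        have := (mem_filter.1 h).2
        simp only [Sym2.eq_iff] at this
        simpa using this
  have key : 4 * (univ.image p).card + 2 * lam ≤ (cross G p).card + 4 * k + 4 := by
    rcases hl with rfl | rfl
    · have hcon : G.Connected := ⟨fun u v => by
        by_cases h : u = v
        · rw [h]
        · obtain ⟨P, -⟩ := hc u v h
          exact ⟨(P 0).1⟩⟩
      have := merge G (d := 2) q hq (fun p' hp' => by have := one_le G hcon p'; omega) univ p
        (by simp)
      simp only [card_univ, Fintype.card_fin] at this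
      omega
    · by_cases hk : 2 ≤ k
      · have := merge G (d := 0) q hq (fun p' hp' => by
          by_cases h : 2 ≤ (univ.image p').card
          · have := two_le G hc p' h; omega
          · omega) univ p (by simp)
        simp only [card_univ, Fintype.card_fin] at this
        omega
      · have hk1 : 0 < k := (q (Classical.arbitrary V)).pos
        have hall : ∀ u v, u ≠ v → G.Adj u v := fun u v h =>
          hq u v (Fin.ext (by have := (q u).2; have := (q v).2; omega)) h
        have a1 := complete_le G hall p
        have a2 : (univ.image p).card ≤ Fintype.card V := card_image_le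
        have a3 : Fintype.card V ≠ 3 := by
          intro h
          have hG : G = ⊤ := by
            ext u v
            exact ⟨fun h => h.ne, hall u v⟩
          rw [hG, cycleGraph_three_eq_top] at h3
          exact h3.false (Iso.completeGraph (Fintype.equivFinOfCardEq h))
        by_cases h : 2 ≤ (univ.image p).card
        · have a4 := two_le G hc p h
          by_cases h4 : 4 ≤ Fintype.card V
          · have := Nat.mul_le_mul_right ((univ.image p).card - 1) h4
            omega
          · omega
        · omega
  unfold yA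
  rw [h1]
  omega

end Pool.Agent.Results.MP_efdca5_co.Merge
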